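import Pool.Agent.Helper37.LN3.Defs
import Pool.Agent.Helper97.LN.CLS

/-!
# Project LN3, block GL3: the degrees of the extensions with sections
-/

set_option autoImplicit false

namespace Pool.Agent.LN3

open NumberField IsDedekindDomain WithZero
open Pool.Agent.HG (Pr nm)
open Pool.Agent.L (OverV)
open Pool.Agent.LN (GoodCurve IsRam DecPt isRam_iff val_ne)
open Pool.Agent.LN2 (FixesD)

theorem FixesD.mono29 {k K0 E : Type} [Field k] [Field K0] [Field E] [Algebra k K0] [Algebra k E]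
    {h : K0} {D D' : ℕ → Prop} {g : E ≃ₐ[k] E} (hD : ∀ d, D' d → D d) (hf : FixesD h D g) :
    FixesD h D' g := by
  obtain ⟨P, φ, h1, h2, h3, h4⟩ := hf
  exact ⟨P, φ, h1, fun d hd => h2 d (hD d hd), h3, h4⟩

/-- the logarithm of the valuation is prime to `n` -/
theorem coprime29 {k : Type} [Field k] [NumberField k] {n : ℕ} (hn : 0 < n) {v : Pr k} {c : k}
    (hc : c ≠ 0) (h : ∀ d : ℕ, d ∣ n → 1 < d → IsRam d v c) :
    IsCoprime (n : ℤ) (log (v.valuation k c)) := by
  rw [Int.isCoprime_iff_gcd_eq_one]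
  have h1 : Int.gcd (n : ℤ) (log (v.valuation k c)) ∣ n := by
    have h2 := Int.gcd_dvd_left (a := (n : ℤ)) (b := log (v.valuation k c))
    exact_mod_cast h2
  have h3 : 0 < Int.gcd (n : ℤ) (log (v.valuation k c)) := Nat.pos_of_dvd_of_pos h1 hn
  by_contra hne
  have h4 : 1 < Int.gcd (n : ℤ) (log (v.valuation k c)) := by omega
  exact (isRam_iff h3 v hc).1 (h _ h1 h4) (Int.gcd_dvd_right ..)

theorem gl (hLOC : StmtLOC) (hDEN : StmtDEN) : StmtGL := by
  classical
  intro k K0 _ _ _ _ n h hn good σ B hB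
  have hn0 : 0 < n := by omega
  obtain ⟨Bad, hBad, hloc⟩ := hLOC k K0 n h hn good
  obtain ⟨δ, C, Q, hδ, hQ, hC⟩ := hDEN k K0 n h hn good σ B hB
  obtain ⟨Q', hQ'⟩ : ∃ Q' : Set (Pr k), ∀ v, v ∈ Q' ↔ v ∈ Q ∧ v ∉ Bad := ⟨Q \ Bad, fun _ => Iff.rfl⟩
  refine ⟨δ, C + ∑ v ∈ hBad.toFinset, (1 : ℝ) / nm v, Q', hδ, ?_, ?_⟩
  · rintro v hv c hc ⟨k', _, _, _, hsec, hdeg⟩
    obtain ⟨hvQ, hvB⟩ := (hQ' v).1 hv
    by_contra hcon
    push Not at hcon
    have hNF : NumberField k' := NumberField.of_module_finite k k'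
    have hcop := coprime29 hn0 hc hcon
    have hc' : algebraMap k k' c ≠ 0 := (map_ne_zero _).2 hc
    apply hdeg
    rw [← Ideal.sum_ramification_inertia (𝓞 k') k k' v.ne_bot]
    refine AddSubmonoid.sum_mem _ fun P hP => ?_
    obtain ⟨hPp, hPo⟩ := (IsDedekindDomain.mem_primesOverFinset_iff v.ne_bot _).1 hP
    have hPb : P ≠ ⊥ := Ideal.ne_bot_of_liesOver_of_ne_bot v.ne_bot P
    obtain ⟨w, hw⟩ : ∃ w : Pr k', w.asIdeal = P := ⟨⟨P, hPp, hPb⟩, rfl⟩
    subst hw
    obtain ⟨e, he⟩ : ∃ e, e = Ideal.ramificationIdx' v.asIdeal w.asIdeal := ⟨_, rfl⟩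
    obtain ⟨f, hf⟩ : ∃ f, f = Ideal.inertiaDeg' v.asIdeal w.asIdeal := ⟨_, rfl⟩
    rw [← he, ← hf]
    have he0 : e ≠ 0 := by
      rw [he]
      exact Ideal.IsDedekindDomain.ramificationIdx'_ne_zero_of_liesOver w.asIdeal v.ne_bot
    have hval : ∀ x : k, w.valuation k' (algebraMap k k' x) = v.valuation k x ^ e := fun x => by
      rw [he]
      exact (HeightOneSpectrum.valuation_liesOver k' v w x).symm
    have hover : Over v w := by
      intro x
      rw [hval]
      exact pow_le_one_iff he0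
    have hlog : log (w.valuation k' (algebraMap k k' c)) = e * log (v.valuation k c) := by
      rw [hval, log_pow, nsmul_eq_mul]
    have hdvd : ∀ d : ℕ, d ∣ n → (d : ℤ) ∣ e * log (v.valuation k c) → d ∣ e := by
      intro d hd h1
      have h2 : IsCoprime (d : ℤ) (log (v.valuation k c)) :=
        hcop.of_isCoprime_of_dvd_left (by exact_mod_cast hd)
      exact_mod_cast h2.dvd_of_dvd_mul_right h1
    have hnm : nm w = nm v ^ f := by
      rw [hf, Ideal.inertiaDeg'_eq_inertiaDeg]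
      exact (Ideal.absNorm_pow_inertiaDeg v.asIdeal w.asIdeal).symm
    have hf0 : 0 < f := by
      rw [hf, Ideal.inertiaDeg'_eq_inertiaDeg]
      exact Ideal.inertiaDeg_pos _ _
    by_cases hne : n ∣ e
    · obtain ⟨q, rfl⟩ := hne
      have h1 : n * q * f = (q * f) • n := by
        rw [smul_eq_mul]
        ring
      rw [h1]
      have h2 : n ∈ Deg n h σ := AddSubmonoid.subset_closure (Or.inl rfl)
      exact nsmul_mem h2 _
    · have hram : IsRam n w (algebraMap k k' c) := by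
        rw [isRam_iff hn0 w hc', hlog]
        exact fun h1 => hne (hdvd n dvd_rfl h1)
      obtain ⟨i1, i2, O, F, p, f0, hdec, hfix⟩ := hloc v hvB k' w hover _ hc' hram hsec
      have hst : ∀ z, F z ∈ O ↔ z ∈ O := hdec.frob.stable
      have hfr : ∀ z ∈ O, O.valuation (F z - z ^ p ^ f0) < 1 := hdec.frob.frob
      have h1 := hQ v hvQ O (fun x => by
        rw [IsScalarTower.algebraMap_apply k k' (AlgebraicClosure k), hdec.above]
        exact hover x) f (F.restrictScalars k) hf0 hst (fun z hz => by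
        rw [← hnm, hdec.norm]
        exact hfr z hz) (fun d => d ∣ n ∧ IsRam d w (algebraMap k k' c)) ⟨dvd_rfl, hram⟩ hfix
      refine AddSubmonoid.subset_closure (Or.inr ⟨e, f, Nat.pos_of_ne_zero he0, hf0, rfl, ?_⟩)
      refine FixesD.mono29 ?_ h1
      rintro d ⟨hdn, hde⟩
      refine ⟨hdn, ?_⟩
      rw [isRam_iff (Nat.pos_of_dvd_of_pos hdn hn0) w hc', hlog]
      exact fun h2 => hde (hdvd d hdn h2)
  · intro x hx
    have h1 := hC x hx
    have h2 : ∑ v ∈ (B x).filter (· ∈ Q), (1 : ℝ) / nm v =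
        ∑ v ∈ (B x).filter (· ∈ Q'), (1 : ℝ) / nm v +
          ∑ v ∈ ((B x).filter (· ∈ Q)).filter (· ∈ Bad), (1 : ℝ) / nm v := by
      rw [← Finset.sum_filter_add_sum_filter_not ((B x).filter (· ∈ Q)) (· ∉ Bad)]
      congr 1
      · rw [Finset.filter_filter]
        refine Finset.sum_congr (Finset.filter_congr fun v _ => ?_) fun _ _ => rfl
        exact (hQ' v).symm
      · refine Finset.sum_congr ?_ fun _ _ => rfl
        ext v
        simp only [Finset.mem_filter, not_not]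
    have h3 : ∑ v ∈ ((B x).filter (· ∈ Q)).filter (· ∈ Bad), (1 : ℝ) / nm v ≤
        ∑ v ∈ hBad.toFinset, (1 : ℝ) / nm v := by
      refine Finset.sum_le_sum_of_subset_of_nonneg ?_ fun v _ _ => by positivity
      intro v hv
      rw [Set.Finite.mem_toFinset]
      exact (Finset.mem_filter.1 hv).2
    have h4 : 0 ≤ ∑ v ∈ ((B x).filter (· ∈ Q)).filter (· ∈ Bad), (1 : ℝ) / nm v :=
      Finset.sum_nonneg fun v _ => by positivity
    have h5 : 0 ≤ ∑ v ∈ hBad.toFinset, (1 : ℝ) / nm v :=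
      Finset.sum_nonneg fun v _ => by positivity
    rw [abs_le] at h1 ⊢
    constructor
    · linarith [h1.1]
    · linarith [h1.2]

end Pool.Agent.LN3
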